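import Pool.Agent.MP_d9582c_gt.H34.DefsA

/-!
The heat flow of a closed relation: the evolution equation and the initial value.
-/

open scoped InnerProductSpace Topology
open Set Filter

noncomputable section

namespace Pool.Agent.MP_d9582c_gt.H66

open H34

/-- The function `heatFn t x / x`. -/
def kf (t x : ℝ) : ℝ := x⁻¹ * heatFn t x

lemma heatFn_eq {t : ℝ} (ht : 0 < t) (x : ℝ) :
    heatFn t x = Real.exp t * expNegInvGlue (x / t) := by
  unfold heatFn expNegInvGlue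
  by_cases hx : x ≤ 0
  · rw [if_pos hx, if_pos (div_nonpos_of_nonpos_of_nonneg hx ht.le), mul_zero]
  · rw [if_neg hx, if_neg (not_le.2 (div_pos (not_le.1 hx) ht)), ← Real.exp_add]
    congr 1
    rw [inv_div, div_eq_mul_inv]
    ring

lemma continuous_heatFn {t : ℝ} (ht : 0 < t) : Continuous (heatFn t) := by
  rw [show heatFn t = fun x => Real.exp t * expNegInvGlue (x / t) from funext (heatFn_eq ht)]
  exact continuous_const.mul
    ((expNegInvGlue.contDiff (n := 0)).continuous.comp (continuous_id.div_const t))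

lemma continuous_kf {t : ℝ} (ht : 0 < t) : Continuous (kf t) := by
  have h := (expNegInvGlue.continuous_polynomial_eval_inv_mul Polynomial.X).comp
    (continuous_id.div_const t)
  have : kf t = fun x => (Real.exp t * t⁻¹) *
      ((fun x : ℝ => Polynomial.X.eval x⁻¹ * expNegInvGlue x) ∘ fun x => id x / t) x := by
    funext x
    simp only [kf, heatFn_eq ht, Function.comp, id, Polynomial.eval_X, inv_div]
    field_simp
  rw [this]
  exact continuous_const.mul h

lemma mul_kf (t x : ℝ) : x * kf t x = heatFn t x := by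
  unfold kf
  by_cases hx : x = 0
  · simp [hx, heatFn]
  · rw [← mul_assoc, mul_inv_cancel₀ hx, one_mul]

lemma heatFn_taylor {t s x : ℝ} (ht : 0 < t) (hs : |s - t| ≤ t / 2) (hx : x ∈ Icc (0 : ℝ) 1) :
    |heatFn s x - heatFn t x - (s - t) * (heatFn t x - kf t x)| ≤ 8 / t ^ 2 * (s - t) ^ 2 := by
  rcases hx.1.eq_or_lt with h0 | h0
  · subst h0
    simp only [heatFn, kf, le_refl, if_true, mul_zero, sub_zero, abs_zero]
    positivity
  have hx' : ¬ x ≤ 0 := not_le.2 h0
  simp only [heatFn, kf, if_neg hx']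
  obtain ⟨y, hy⟩ : ∃ y, y = x⁻¹ - 1 := ⟨_, rfl⟩
  have hy0 : 0 ≤ y := by
    rw [hy, sub_nonneg]
    exact (one_le_inv₀ h0).2 hx.2
  have hxy : x⁻¹ = y + 1 := by rw [hy]; ring
  rw [← hy, hxy]
  obtain ⟨z, hz⟩ : ∃ z, z = -(s - t) * y := ⟨_, rfl⟩
  have h1 : Real.exp (-s * y) - Real.exp (-t * y) -
      (s - t) * (Real.exp (-t * y) - (y + 1) * Real.exp (-t * y)) =
      Real.exp (-t * y) * (Real.exp z - (1 + z)) := by
    rw [show -s * y = -t * y + z by rw [hz]; ring, Real.exp_add, hz]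
    ring
  have h2 : |Real.exp z - (1 + z)| ≤ |z| ^ 2 * Real.exp |z| := by
    have := Complex.norm_exp_sub_sum_le_norm_mul_exp (z : ℂ) 2
    simp only [Finset.sum_range_succ, Finset.range_zero, Finset.sum_empty, pow_zero,
      Nat.factorial_zero, Nat.cast_one, div_one, zero_add, pow_one, Nat.factorial_one,
      Complex.norm_real, Real.norm_eq_abs] at this
    rwa [← Complex.ofReal_exp, ← Complex.ofReal_one, ← Complex.ofReal_add, ← Complex.ofReal_sub,
      Complex.norm_real, Real.norm_eq_abs] at this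
  have h3 : |z| ≤ t / 2 * y := by
    rw [hz, abs_mul, abs_neg, abs_of_nonneg hy0]
    exact mul_le_mul_of_nonneg_right hs hy0
  have h4 : |z| ^ 2 = (s - t) ^ 2 * y ^ 2 := by rw [sq_abs, hz]; ring
  have h5 : y ^ 2 * Real.exp (-(t / 2 * y)) ≤ 8 / t ^ 2 := by
    have := Real.quadratic_le_exp_of_nonneg (x := t / 2 * y) (by positivity)
    rw [Real.exp_neg, ← div_eq_mul_inv, div_le_div_iff₀ (Real.exp_pos _) (by positivity)]
    have h6 : 0 ≤ t / 2 * y := by positivity
    nlinarith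
  rw [h1, abs_mul, abs_of_pos (Real.exp_pos _)]
  calc Real.exp (-t * y) * |Real.exp z - (1 + z)|
      ≤ Real.exp (-t * y) * (|z| ^ 2 * Real.exp (t / 2 * y)) := by
        gcongr
        exact h2.trans (by gcongr)
    _ = (y ^ 2 * Real.exp (-(t / 2 * y))) * (s - t) ^ 2 := by
        rw [h4, show -(t / 2 * y) = -t * y + t / 2 * y by ring, Real.exp_add]
        ring
    _ ≤ _ := by gcongr

lemma heatFn_le_one {t x : ℝ} (ht : 0 < t) (hx : x ∈ Icc (0 : ℝ) 1) : |heatFn t x| ≤ 1 := by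
  unfold heatFn
  split_ifs with h
  · simp
  · rw [abs_of_pos (Real.exp_pos _), Real.exp_le_one_iff]
    have : 1 ≤ x⁻¹ := (one_le_inv₀ (not_le.1 h)).2 hx.2
    nlinarith

lemma heatFn_mul_sub {t x : ℝ} (ht : 0 < t) (hx : x ∈ Icc (0 : ℝ) 1) :
    |heatFn t x * x - x| ≤ t := by
  unfold heatFn
  split_ifs with h
  · rw [le_antisymm h hx.1]
    simpa using ht.le
  · have h0 := not_le.1 h
    have h1 : 1 ≤ x⁻¹ := (one_le_inv₀ h0).2 hx.2
    have h2 : Real.exp (-t * (x⁻¹ - 1)) ≤ 1 := by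
      rw [Real.exp_le_one_iff]
      nlinarith
    have h3 := Real.add_one_le_exp (-t * (x⁻¹ - 1))
    have h4 : (-t * (x⁻¹ - 1) + 1) * x = -t * (1 - x) + x := by field_simp
    rw [abs_le]
    constructor
    · nlinarith [mul_le_mul_of_nonneg_right h3 hx.1, hx.1, hx.2]
    · nlinarith [mul_le_mul_of_nonneg_right h2 hx.1]

variable {H K : Type*} [NormedAddCommGroup H] [InnerProductSpace ℂ H] [CompleteSpace H]
  [NormedAddCommGroup K] [InnerProductSpace ℂ K] [CompleteSpace K]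

/-- The lower left corner of the projection onto the graph. -/
def cores (Γ : Submodule ℂ (H × K)) (u : H) : K := (graphProj Γ (WithLp.toLp 2 (u, 0))).snd

lemma resolv_apply (Γ : Submodule ℂ (H × K)) (u : H) :
    resolv Γ u = (graphProj Γ (WithLp.toLp 2 (u, 0))).fst := rfl

variable {Γ : Submodule ℂ (H × K)}

omit [CompleteSpace H] [CompleteSpace K] in
lemma closure_eq (hΓ : IsClosed (Γ : Set (H × K))) :
    (Γ.comap (WithLp.linearEquiv 2 ℂ (H × K)).toLinearMap).topologicalClosure =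
      Γ.comap (WithLp.linearEquiv 2 ℂ (H × K)).toLinearMap :=
  IsClosed.submodule_topologicalClosure_eq
    (hΓ.preimage (WithLp.prodContinuousLinearEquiv 2 ℂ H K).continuous)

lemma resolv_mem (hΓ : IsClosed (Γ : Set (H × K))) (u : H) : (resolv Γ u, cores Γ u) ∈ Γ := by
  have h : graphProj Γ (WithLp.toLp 2 (u, 0)) ∈
      (Γ.comap (WithLp.linearEquiv 2 ℂ (H × K)).toLinearMap).topologicalClosure :=
    Submodule.starProjection_apply_mem _ _
  rw [closure_eq hΓ] at h
  exact h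

lemma inner_resolv {v : H} {a : K} (h : (v, a) ∈ Γ) (u : H) :
    ⟪v, u - resolv Γ u⟫_ℂ = ⟪a, cores Γ u⟫_ℂ := by
  have h1 : WithLp.toLp 2 (v, a) ∈
      (Γ.comap (WithLp.linearEquiv 2 ℂ (H × K)).toLinearMap).topologicalClosure :=
    Submodule.le_topologicalClosure _ h
  have h2 := Submodule.inner_right_of_mem_orthogonal h1
    (Submodule.sub_starProjection_mem_orthogonal (WithLp.toLp 2 (u, 0)))
  rw [WithLp.prod_inner_apply] at h2
  have h3 : ⟪v, u - resolv Γ u⟫_ℂ + ⟪a, 0 - cores Γ u⟫_ℂ = 0 := h2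
  rw [zero_sub, inner_neg_right] at h3
  exact add_neg_eq_zero.1 h3

lemma inner_resolv_left (hΓ : IsClosed (Γ : Set (H × K))) (u v : H) :
    ⟪resolv Γ u, v⟫_ℂ = ⟪resolv Γ u, resolv Γ v⟫_ℂ + ⟪cores Γ u, cores Γ v⟫_ℂ := by
  rw [← inner_resolv (resolv_mem hΓ u) v, inner_sub_right]
  ring

lemma resolv_selfAdjoint (hΓ : IsClosed (Γ : Set (H × K))) : IsSelfAdjoint (resolv Γ) := by
  rw [ContinuousLinearMap.isSelfAdjoint_iff_isSymmetric]
  intro u v
  change ⟪resolv Γ u, v⟫_ℂ = ⟪u, resolv Γ v⟫_ℂ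
  rw [inner_resolv_left hΓ u v, ← inner_conj_symm u, inner_resolv_left hΓ v u, map_add,
    inner_conj_symm, inner_conj_symm]

lemma re_inner_resolv (hΓ : IsClosed (Γ : Set (H × K))) (u : H) :
    (⟪resolv Γ u, u⟫_ℂ).re = ‖resolv Γ u‖ ^ 2 + ‖cores Γ u‖ ^ 2 := by
  rw [inner_resolv_left hΓ u u, Complex.add_re, ← inner_self_eq_norm_sq (𝕜 := ℂ),
    ← inner_self_eq_norm_sq (𝕜 := ℂ)]
  rfl

lemma norm_resolv_le (hΓ : IsClosed (Γ : Set (H × K))) : ‖resolv Γ‖ ≤ 1 := by
  refine ContinuousLinearMap.opNorm_le_bound _ zero_le_one fun u => ?_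
  have h1 := re_inner_resolv hΓ u
  have h2 : (⟪resolv Γ u, u⟫_ℂ).re ≤ ‖resolv Γ u‖ * ‖u‖ :=
    (Complex.re_le_norm _).trans (norm_inner_le_norm _ _)
  rw [one_mul]
  by_contra h
  push Not at h
  nlinarith [norm_nonneg u, sq_nonneg ‖cores Γ u‖]

lemma spectrum_resolv (hΓ : IsClosed (Γ : Set (H × K))) {x : ℝ}
    (hx : x ∈ spectrum ℝ (resolv Γ)) : x ∈ Icc (0 : ℝ) 1 := by
  have h0 : 0 ≤ resolv Γ := by
    rw [ContinuousLinearMap.nonneg_iff_isPositive]
    refine ⟨ContinuousLinearMap.isSelfAdjoint_iff_isSymmetric.1 (resolv_selfAdjoint hΓ),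
      fun u => ?_⟩
    change 0 ≤ (⟪resolv Γ u, u⟫_ℂ).re
    rw [re_inner_resolv hΓ]
    positivity
  refine ⟨spectrum_nonneg_of_nonneg h0 hx, ?_⟩
  rcases subsingleton_or_nontrivial (H →L[ℂ] H) with h | h
  · simp [spectrum.of_subsingleton] at hx
  · exact (le_abs_self x).trans ((spectrum.norm_le_norm_of_mem hx).trans (norm_resolv_le hΓ))

/-- The vector `w` with `heat t u = R w`. -/
def wv (Γ : Submodule ℂ (H × K)) (t : ℝ) (u : H) : H := cfc (kf t) (resolv Γ) u

lemma heat_eq_mul (hΓ : IsClosed (Γ : Set (H × K))) {t : ℝ} (ht : 0 < t) :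
    heat Γ t = resolv Γ * cfc (kf t) (resolv Γ) := by
  have := resolv_selfAdjoint hΓ
  have hk := (continuous_kf ht).continuousOn (s := spectrum ℝ (resolv Γ))
  rw [heat, show heatFn t = fun x => x * kf t x from funext fun x => (mul_kf t x).symm,
    cfc_mul (fun x => x) (kf t) (resolv Γ), cfc_id' ℝ (resolv Γ)]

lemma heat_eq_mul' (hΓ : IsClosed (Γ : Set (H × K))) {t : ℝ} (ht : 0 < t) :
    heat Γ t = cfc (kf t) (resolv Γ) * resolv Γ := by
  have := resolv_selfAdjoint hΓ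
  have hk := (continuous_kf ht).continuousOn (s := spectrum ℝ (resolv Γ))
  rw [heat, show heatFn t = fun x => kf t x * x from
      funext fun x => by rw [mul_comm, mul_kf],
    cfc_mul (kf t) (fun x => x) (resolv Γ), cfc_id' ℝ (resolv Γ)]

lemma heat_eq (hΓ : IsClosed (Γ : Set (H × K))) {t : ℝ} (ht : 0 < t) (u : H) :
    heat Γ t u = resolv Γ (wv Γ t u) := by
  rw [heat_eq_mul hΓ ht]
  rfl

lemma heat_mem (hΓ : IsClosed (Γ : Set (H × K))) {t : ℝ} (ht : 0 < t) (u : H) :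
    (heat Γ t u, cores Γ (wv Γ t u)) ∈ Γ := by
  rw [heat_eq hΓ ht]
  exact resolv_mem hΓ _

lemma hasDerivAt_heat_op (hΓ : IsClosed (Γ : Set (H × K))) {t : ℝ} (ht : 0 < t) :
    HasDerivAt (heat Γ) (heat Γ t - cfc (kf t) (resolv Γ)) t := by
  have hsa := resolv_selfAdjoint hΓ
  rw [hasDerivAt_iff_isLittleO]
  have h1 : (fun s : ℝ => (s - t) ^ 2) =o[𝓝 t] fun s => s - t := by
    have := (Asymptotics.isLittleO_pow_id (𝕜 := ℝ) one_lt_two).comp_tendsto
      (show Tendsto (fun s : ℝ => s - t) (𝓝 t) (𝓝 0) by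
        simpa using (by fun_prop : Continuous fun s : ℝ => s - t).tendsto t)
    exact this
  refine Asymptotics.IsBigO.trans_isLittleO (Asymptotics.IsBigO.of_bound (8 / t ^ 2) ?_) h1
  have h2 : ∀ᶠ s in 𝓝 t, |s - t| ≤ t / 2 := by
    filter_upwards [Metric.closedBall_mem_nhds t (half_pos ht)] with s hs
    exact hs
  filter_upwards [h2] with s hs
  have hs0 : 0 < s := by linarith [(abs_le.1 hs).1]
  have c1 := (continuous_kf ht).continuousOn (s := spectrum ℝ (resolv Γ))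
  have c2 := (continuous_heatFn ht).continuousOn (s := spectrum ℝ (resolv Γ))
  have c3 := (continuous_heatFn hs0).continuousOn (s := spectrum ℝ (resolv Γ))
  have h3 : heat Γ s - heat Γ t - (s - t) • (heat Γ t - cfc (kf t) (resolv Γ)) =
      cfc (fun x => heatFn s x - heatFn t x - (s - t) * (heatFn t x - kf t x)) (resolv Γ) := by
    rw [cfc_sub (fun x => heatFn s x - heatFn t x) (fun x => (s - t) * (heatFn t x - kf t x)) _
        (c3.sub c2) (continuousOn_const.mul (c2.sub c1)), cfc_sub _ _ _ c3 c2,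
      cfc_const_mul _ (fun x => heatFn t x - kf t x) _ (c2.sub c1), cfc_sub _ _ _ c2 c1]
    rfl
  rw [h3, Real.norm_eq_abs, abs_of_nonneg (sq_nonneg _)]
  exact norm_cfc_le (by positivity) fun x hx => heatFn_taylor ht hs (spectrum_resolv hΓ hx)

lemma hasDerivAt_heat (hΓ : IsClosed (Γ : Set (H × K))) {t : ℝ} (ht : 0 < t) (u : H) :
    HasDerivAt (fun s => heat Γ s u) (heat Γ t u - wv Γ t u) t :=
  ((ContinuousLinearMap.apply ℂ H u).restrictScalars ℝ).hasFDerivAt.comp_hasDerivAt t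
    (hasDerivAt_heat_op hΓ ht)

/-- The weak form of the heat equation. -/
lemma inner_deriv (hΓ : IsClosed (Γ : Set (H × K))) {t : ℝ} (ht : 0 < t) (u : H) {v : H} {a : K}
    (h : (v, a) ∈ Γ) : ⟪v, heat Γ t u - wv Γ t u⟫_ℂ = -⟪a, cores Γ (wv Γ t u)⟫_ℂ := by
  rw [← inner_resolv h, heat_eq hΓ ht, ← inner_neg_right, neg_sub]

/-- The closure of the domain. -/
def dcl (Γ : Submodule ℂ (H × K)) : Submodule ℂ H := (resolv Γ).range.topologicalClosure

instance (Γ : Submodule ℂ (H × K)) : (dcl Γ).HasOrthogonalProjection := by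
  unfold dcl
  infer_instance

lemma dcl_eq (hΓ : IsClosed (Γ : Set (H × K))) : dcl Γ = (resolv Γ).kerᗮ := by
  rw [ContinuousLinearMap.orthogonal_ker, (resolv_selfAdjoint hΓ).adjoint_eq, dcl]

lemma mem_dcl (hΓ : IsClosed (Γ : Set (H × K))) {v : H} {a : K} (h : (v, a) ∈ Γ) :
    v ∈ dcl Γ := by
  rw [dcl_eq hΓ, Submodule.mem_orthogonal']
  intro z hz
  have hz0 : resolv Γ z = 0 := hz
  have h1 := re_inner_resolv hΓ z
  rw [hz0, inner_zero_left, norm_zero] at h1
  have h2 : cores Γ z = 0 := by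
    rw [← norm_eq_zero, ← pow_eq_zero_iff two_ne_zero]
    simpa using h1.symm
  have h3 := inner_resolv h z
  rwa [hz0, h2, sub_zero, inner_zero_right] at h3

lemma map_dcl {H' K' : Type*} [NormedAddCommGroup H'] [InnerProductSpace ℂ H'] [CompleteSpace H']
    [NormedAddCommGroup K'] [InnerProductSpace ℂ K'] [CompleteSpace K']
    {Γ' : Submodule ℂ (H' × K')} (hΓ : IsClosed (Γ : Set (H × K)))
    (hΓ' : IsClosed (Γ' : Set (H' × K'))) (T : H →L[ℂ] H')
    (hT : ∀ v a, (v, a) ∈ Γ → ∃ b, (T v, b) ∈ Γ') {v : H} (hv : v ∈ dcl Γ) : T v ∈ dcl Γ' := by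
  refine closure_minimal (t := T ⁻¹' (dcl Γ' : Set H')) ?_
    ((Submodule.isClosed_topologicalClosure _).preimage T.continuous) hv
  rintro _ ⟨z, rfl⟩
  obtain ⟨b, hb⟩ := hT _ _ (resolv_mem hΓ z)
  exact mem_dcl hΓ' hb

lemma norm_heat_le (hΓ : IsClosed (Γ : Set (H × K))) {t : ℝ} (ht : 0 < t) : ‖heat Γ t‖ ≤ 1 :=
  norm_cfc_le zero_le_one fun _ hx => heatFn_le_one ht (spectrum_resolv hΓ hx)

lemma norm_heat_resolv (hΓ : IsClosed (Γ : Set (H × K))) {t : ℝ} (ht : 0 < t) (z : H) :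
    ‖heat Γ t (resolv Γ z) - resolv Γ z‖ ≤ t * ‖z‖ := by
  have hsa := resolv_selfAdjoint hΓ
  have c2 := (continuous_heatFn ht).continuousOn (s := spectrum ℝ (resolv Γ))
  have h1 : heat Γ t * resolv Γ - resolv Γ = cfc (fun x => heatFn t x * x - x) (resolv Γ) := by
    rw [cfc_sub (fun x => heatFn t x * x) (fun x => x) _ (c2.mul continuousOn_id) continuousOn_id,
      cfc_mul (heatFn t) (fun x => x) (resolv Γ), cfc_id' ℝ (resolv Γ)]
    rfl
  have h2 : ‖heat Γ t * resolv Γ - resolv Γ‖ ≤ t := by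
    rw [h1]
    exact norm_cfc_le ht.le fun x hx => heatFn_mul_sub ht (spectrum_resolv hΓ hx)
  exact (ContinuousLinearMap.le_opNorm (heat Γ t * resolv Γ - resolv Γ) z).trans (by gcongr)

lemma tendsto_heat_dcl (hΓ : IsClosed (Γ : Set (H × K))) {v : H} (hv : v ∈ dcl Γ) :
    Tendsto (fun t => heat Γ t v) (𝓝[>] 0) (𝓝 v) := by
  rw [Metric.tendsto_nhds]
  intro ε hε
  obtain ⟨_, ⟨z, rfl⟩, hz⟩ := Metric.mem_closure_iff.1 hv (ε / 3) (by positivity)
  have h1 : Tendsto (fun t : ℝ => t * ‖z‖) (𝓝[>] 0) (𝓝 0) := by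
    have : Tendsto (fun t : ℝ => t * ‖z‖) (𝓝 0) (𝓝 (0 * ‖z‖)) :=
      (continuous_id.mul continuous_const).tendsto 0
    rw [zero_mul] at this
    exact this.mono_left nhdsWithin_le_nhds
  filter_upwards [h1.eventually (gt_mem_nhds (show 0 < ε / 3 by positivity)),
    self_mem_nhdsWithin] with t ht ht0
  rw [dist_eq_norm] at hz ⊢
  have hz' : ‖v - resolv Γ z‖ < ε / 3 := hz
  have h2 := norm_heat_resolv hΓ ht0 z
  have h3 : ‖heat Γ t (v - resolv Γ z)‖ ≤ ‖v - resolv Γ z‖ :=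
    ((heat Γ t).le_opNorm _).trans (mul_le_of_le_one_left (norm_nonneg _) (norm_heat_le hΓ ht0))
  have h4 : heat Γ t v - v = heat Γ t (v - resolv Γ z) + (heat Γ t (resolv Γ z) - resolv Γ z) -
      (v - resolv Γ z) := by
    rw [map_sub]
    abel
  rw [h4]
  linarith [norm_sub_le (heat Γ t (v - resolv Γ z) + (heat Γ t (resolv Γ z) - resolv Γ z))
    (v - resolv Γ z), norm_add_le (heat Γ t (v - resolv Γ z)) (heat Γ t (resolv Γ z) - resolv Γ z)]

lemma tendsto_heat (hΓ : IsClosed (Γ : Set (H × K))) (u : H) :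
    Tendsto (fun t => heat Γ t u) (𝓝[>] 0) (𝓝 ((dcl Γ).starProjection u)) := by
  refine (tendsto_heat_dcl hΓ (Submodule.starProjection_apply_mem (dcl Γ) u)).congr' ?_
  filter_upwards [self_mem_nhdsWithin] with t ht
  have h1 : u - (dcl Γ).starProjection u ∈ (dcl Γ)ᗮ :=
    Submodule.sub_starProjection_mem_orthogonal u
  have h2 : resolv Γ (u - (dcl Γ).starProjection u) = 0 := by
    rw [← inner_self_eq_zero (𝕜 := ℂ), ← ContinuousLinearMap.adjoint_inner_left,
      (resolv_selfAdjoint hΓ).adjoint_eq]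
    exact Submodule.inner_right_of_mem_orthogonal (mem_dcl hΓ (resolv_mem hΓ _)) h1
  have h3 : heat Γ t (u - (dcl Γ).starProjection u) = 0 := by
    rw [heat_eq_mul' hΓ ht]
    change cfc (kf t) (resolv Γ) (resolv Γ _) = 0
    rw [h2, map_zero]
  rw [map_sub, sub_eq_zero] at h3
  exact h3.symm

lemma gronwall {f f' : ℝ → ℝ} {c f₀ : ℝ} (hf : ∀ t > 0, HasDerivAt f (f' t) t)
    (hc : ∀ t > 0, f' t ≤ c * f t) (h0 : Tendsto f (𝓝[>] 0) (𝓝 f₀)) {t : ℝ} (ht : 0 < t) :
    f t ≤ Real.exp (c * t) * f₀ := by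
  have hg : ∀ s > 0, HasDerivAt (fun s => Real.exp (-c * s) * f s)
      (Real.exp (-c * s) * (f' s - c * f s)) s := fun s hs => by
    have := (((hasDerivAt_id s).const_mul (-c)).exp).mul (hf s hs)
    refine this.congr_deriv ?_
    simp only [id]
    ring
  have ha : AntitoneOn (fun s => Real.exp (-c * s) * f s) (Ioi 0) := by
    refine antitoneOn_of_deriv_nonpos (convex_Ioi 0)
      (fun s hs => (hg s hs).continuousAt.continuousWithinAt)
      (fun s hs => (hg s (by simpa using hs)).differentiableAt.differentiableWithinAt)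
      fun s hs => ?_
    have hs0 : 0 < s := by simpa using hs
    rw [(hg s hs0).deriv]
    exact mul_nonpos_of_nonneg_of_nonpos (Real.exp_pos _).le (sub_nonpos.2 (hc s hs0))
  have h1 : Tendsto (fun s => Real.exp (-c * s) * f s) (𝓝[>] 0) (𝓝 (Real.exp (-c * 0) * f₀)) :=
    (((by fun_prop : Continuous fun s => Real.exp (-c * s)).tendsto 0).mono_left
      nhdsWithin_le_nhds).mul h0
  have h2 : Real.exp (-c * t) * f t ≤ Real.exp (-c * 0) * f₀ := by
    refine ge_of_tendsto h1 ?_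
    filter_upwards [Ioo_mem_nhdsGT ht] with s hs
    exact ha hs.1 ht hs.2.le
  rw [mul_zero, Real.exp_zero, one_mul] at h2
  calc f t = Real.exp (c * t) * (Real.exp (-c * t) * f t) := by
        rw [← mul_assoc, ← Real.exp_add]
        simp
    _ ≤ _ := by gcongr

end Pool.Agent.MP_d9582c_gt.H66
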