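import Pool.Agent.MP_d9582c_gt.H34.Stmts
import Pool.Agent.MP_d9582c_gt.H66.LocA

/-!
Weighted energy estimate for the heat flow and comparison of two heat flows.
-/

open scoped InnerProductSpace Topology
open Set Filter ContinuousLinearMap

noncomputable section

namespace Pool.Agent.MP_d9582c_gt.H66

open H34

section

variable {H K : Type*} [NormedAddCommGroup H] [InnerProductSpace ℂ H] [CompleteSpace H]
  [NormedAddCommGroup K] [InnerProductSpace ℂ K] [CompleteSpace K]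

omit [CompleteSpace H] in
lemma hasDerivAt_norm_sq {f : ℝ → H} {f' : H} {t : ℝ} (hf : HasDerivAt f f' t) :
    HasDerivAt (fun s => ‖f s‖ ^ 2) (2 * (⟪f t, f'⟫_ℂ).re) t := by
  have h1 := Complex.reCLM.hasFDerivAt.comp_hasDerivAt t (hf.inner ℂ hf)
  have h2 : (fun s => ‖f s‖ ^ 2) = Complex.reCLM ∘ fun s => ⟪f s, f s⟫_ℂ := by
    funext s
    exact (inner_self_eq_norm_sq (𝕜 := ℂ) (f s)).symm
  rw [h2]
  refine h1.congr_deriv ?_
  rw [Complex.reCLM_apply, Complex.add_re, ← inner_conj_symm f' (f t), Complex.conj_re, two_mul]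

omit [CompleteSpace H] in
lemma re_inner_self (u : H) : (⟪u, u⟫_ℂ).re = ‖u‖ ^ 2 := inner_self_eq_norm_sq (𝕜 := ℂ) u

omit [CompleteSpace H] in
lemma two_re_le {u v : H} {c : ℝ} (hv : ‖v‖ ≤ c) : 2 * |(⟪u, v⟫_ℂ).re| ≤ ‖u‖ ^ 2 + c ^ 2 := by
  have h1 : |(⟪u, v⟫_ℂ).re| ≤ ‖u‖ * c :=
    (Complex.abs_re_le_norm _).trans ((norm_inner_le_norm _ _).trans (by gcongr))
  nlinarith [sq_nonneg (‖u‖ - c)]

variable {Γ : Submodule ℂ (H × K)} {W : H →L[ℂ] H} {W' : K →L[ℂ] K} {Y : H →L[ℂ] K} {α : ℝ}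

lemma weight_deriv (hΓ : IsClosed (Γ : Set (H × K))) {t : ℝ} (ht : 0 < t) (u : H) :
    HasDerivAt (fun s => ‖W (heat Γ s u)‖ ^ 2)
      (2 * (⟪W (heat Γ t u), W (heat Γ t u - wv Γ t u)⟫_ℂ).re) t :=
  hasDerivAt_norm_sq ((W.restrictScalars ℝ).hasFDerivAt.comp_hasDerivAt t (hasDerivAt_heat hΓ ht u))

lemma weight_deriv_le (hΓ : IsClosed (Γ : Set (H × K))) (hW : IsSelfAdjoint W)
    (hW' : IsSelfAdjoint W') (hY : ‖Y‖ ≤ α)
    (hWΓ : ∀ u a, (u, a) ∈ Γ → (W (W u), W' (W' a) + W' (Y (W u))) ∈ Γ) {t : ℝ} (ht : 0 < t)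
    (u : H) : 2 * (⟪W (heat Γ t u), W (heat Γ t u - wv Γ t u)⟫_ℂ).re ≤
      α ^ 2 * ‖W (heat Γ t u)‖ ^ 2 - ‖W' (cores Γ (wv Γ t u))‖ ^ 2 := by
  have h1 := inner_deriv hΓ ht u (hWΓ _ _ (heat_mem hΓ ht u))
  rw [← adjoint_inner_left, hW.adjoint_eq, h1, ← map_add, ← adjoint_inner_right, hW'.adjoint_eq,
    inner_add_left, Complex.neg_re, Complex.add_re, re_inner_self, ← inner_conj_symm,
    Complex.conj_re]
  have h2 : ‖Y (W (heat Γ t u))‖ ≤ α * ‖W (heat Γ t u)‖ := (Y.le_opNorm _).trans (by gcongr)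
  have h3 := two_re_le (u := W' (cores Γ (wv Γ t u))) h2
  have h4 := neg_abs_le (⟪W' (cores Γ (wv Γ t u)), Y (W (heat Γ t u))⟫_ℂ).re
  rw [mul_pow] at h3
  linarith

lemma weight_zero (hΓ : IsClosed (Γ : Set (H × K))) (hW : IsSelfAdjoint W)
    (hWΓ : ∀ u a, (u, a) ∈ Γ → (W (W u), W' (W' a) + W' (Y (W u))) ∈ Γ) (u : H) :
    ‖W ((dcl Γ).starProjection u)‖ ^ 2 ≤ ‖W u‖ ^ 2 := by
  obtain ⟨p, hp⟩ : ∃ p, p = (dcl Γ).starProjection u := ⟨_, rfl⟩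
  have h1 : W (W p) ∈ dcl Γ :=
    map_dcl hΓ hΓ (W ∘L W) (fun v a h => ⟨_, hWΓ v a h⟩)
      (hp ▸ Submodule.starProjection_apply_mem (dcl Γ) u)
  have h2 : ⟪W p, W (u - p)⟫_ℂ = 0 := by
    rw [← adjoint_inner_left, hW.adjoint_eq]
    exact Submodule.inner_right_of_mem_orthogonal h1
      (hp ▸ Submodule.sub_starProjection_mem_orthogonal u)
  have h3 := norm_add_sq_eq_norm_sq_add_norm_sq_of_inner_eq_zero _ _ h2
  rw [← map_add, add_sub_cancel] at h3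
  rw [← hp]
  nlinarith [norm_nonneg (W (u - p))]

end

theorem davies : DaviesStmt := by
  intro H K _ _ _ _ _ _ Γ hΓ W W' Y α hW hW' hY hWΓ t ht u
  have h := gronwall (c := α ^ 2) (fun s hs => weight_deriv (W := W) hΓ hs u)
    (fun s hs => (weight_deriv_le hΓ hW hW' hY hWΓ hs u).trans
      (sub_le_self _ (sq_nonneg _)))
    ((((W.continuous.tendsto _).comp (tendsto_heat hΓ u)).norm).pow 2) ht
  exact h.trans (mul_le_mul_of_nonneg_left (weight_zero hΓ hW hWΓ u) (Real.exp_pos _).le)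

theorem compare : CompareStmt := by
  intro H₁ K₁ H₂ K₂ _ _ _ _ _ _ _ _ _ _ _ _ Γ₁ Γ₂ h₁ h₂ W W' Y α hW hW' hY hWΓ L L' B B' β hL hL'
    hB hB' t ht u
  have hP : (dcl Γ₂).starProjection (adjoint L u) = adjoint L ((dcl Γ₁).starProjection u) := by
    refine Submodule.eq_starProjection_of_mem_of_inner_eq_zero
      (map_dcl h₁ h₂ (adjoint L) (fun v a h => ⟨_, hL' v a h⟩)
        (Submodule.starProjection_apply_mem _ u)) fun v hv => ?_
    rw [← map_sub, adjoint_inner_left]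
    exact Submodule.inner_left_of_mem_orthogonal
      (map_dcl h₂ h₁ L (fun v a h => ⟨_, hL v a h⟩) hv)
      (Submodule.sub_starProjection_mem_orthogonal u)
  have hd : ∀ s > 0, HasDerivAt (fun s => ‖heat Γ₂ s (adjoint L u) - adjoint L (heat Γ₁ s u)‖ ^ 2 +
      β ^ 2 * ‖W (heat Γ₁ s u)‖ ^ 2)
      (2 * (⟪heat Γ₂ s (adjoint L u) - adjoint L (heat Γ₁ s u),
        (heat Γ₂ s (adjoint L u) - wv Γ₂ s (adjoint L u)) -
          adjoint L (heat Γ₁ s u - wv Γ₁ s u)⟫_ℂ).re +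
        β ^ 2 * (2 * (⟪W (heat Γ₁ s u), W (heat Γ₁ s u - wv Γ₁ s u)⟫_ℂ).re)) s := fun s hs =>
    (hasDerivAt_norm_sq ((hasDerivAt_heat h₂ hs _).sub
      (((adjoint L).restrictScalars ℝ).hasFDerivAt.comp_hasDerivAt s
        (hasDerivAt_heat h₁ hs u)))).add ((weight_deriv h₁ hs u).const_mul _)
  have h0 : Tendsto (fun s => ‖heat Γ₂ s (adjoint L u) - adjoint L (heat Γ₁ s u)‖ ^ 2 +
      β ^ 2 * ‖W (heat Γ₁ s u)‖ ^ 2) (𝓝[>] 0)
      (𝓝 (‖(dcl Γ₂).starProjection (adjoint L u) - adjoint L ((dcl Γ₁).starProjection u)‖ ^ 2 +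
        β ^ 2 * ‖W ((dcl Γ₁).starProjection u)‖ ^ 2)) :=
    (((tendsto_heat h₂ _).sub
      (((adjoint L).continuous.tendsto _).comp (tendsto_heat h₁ u))).norm.pow 2).add
      (((((W.continuous.tendsto _).comp (tendsto_heat h₁ u)).norm).pow 2).const_mul _)
  rw [hP, sub_self, norm_zero, zero_pow two_ne_zero, zero_add] at h0
  have h := gronwall (c := α ^ 2 + 1) hd (fun s hs => ?_) h0 ht
  · have h3 := weight_zero h₁ hW hWΓ u
    calc _ ≤ _ := le_add_of_nonneg_right (by positivity)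
      _ ≤ _ := h
      _ ≤ Real.exp ((α ^ 2 + 1) * t) * (β ^ 2 * ‖W u‖ ^ 2) := by gcongr
      _ = _ := by ring
  have hw := weight_deriv_le h₁ hW hW' hY hWΓ hs u
  have m₁ := heat_mem h₁ hs u
  have m₂ := heat_mem h₂ hs (adjoint L u)
  have d₁ := @inner_deriv _ _ _ _ _ _ _ _ _ h₁ s hs u
  have d₂ := @inner_deriv _ _ _ _ _ _ _ _ _ h₂ s hs (adjoint L u)
  generalize heat Γ₁ s u - wv Γ₁ s u = x₁ at *
  generalize heat Γ₂ s (adjoint L u) - wv Γ₂ s (adjoint L u) = x₂ at *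
  generalize heat Γ₁ s u = u₁ at *
  generalize heat Γ₂ s (adjoint L u) = u₂ at *
  generalize cores Γ₁ (wv Γ₁ s u) = a₁ at *
  generalize cores Γ₂ (wv Γ₂ s (adjoint L u)) = a₂ at *
  have me : (u₂ - adjoint L u₁, a₂ - (adjoint L' a₁ + B' u₁)) ∈ Γ₂ := Γ₂.sub_mem m₂ (hL' _ _ m₁)
  obtain ⟨e, he⟩ : ∃ e, e = u₂ - adjoint L u₁ := ⟨_, rfl⟩
  obtain ⟨b, hb⟩ : ∃ b, b = a₂ - (adjoint L' a₁ + B' u₁) := ⟨_, rfl⟩
  rw [← he, ← hb] at me
  rw [← he]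
  have key : ⟪e, x₂ - adjoint L x₁⟫_ℂ = -⟪b, b⟫_ℂ - ⟪b, B' u₁⟫_ℂ + ⟪e, adjoint B a₁⟫_ℂ := by
    rw [inner_sub_right, d₂ me, adjoint_inner_right, d₁ (hL _ _ me), inner_add_left,
      adjoint_inner_right, ← adjoint_inner_right L',
      show a₂ = b + (adjoint L' a₁ + B' u₁) by rw [hb]; abel, inner_add_right, inner_add_right]
    ring
  rw [key, Complex.add_re, Complex.sub_re, Complex.neg_re, re_inner_self]
  have e1 := two_re_le (u := b) (hB' u₁)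
  have e2 := two_re_le (u := e) (hB a₁)
  have e3 := neg_abs_le (⟪b, B' u₁⟫_ℂ).re
  have e4 := le_abs_self (⟪e, adjoint B a₁⟫_ℂ).re
  have e5 := mul_le_mul_of_nonneg_left hw (sq_nonneg β)
  rw [mul_pow] at e1 e2
  nlinarith [sq_nonneg ‖b‖, mul_nonneg (sq_nonneg α) (sq_nonneg ‖e‖)]

end Pool.Agent.MP_d9582c_gt.H66
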